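import Pool.Agent.Q45.ML.Real
import Pool.Agent.Q45.ML.OF

/-! The order and the leading coefficient of a real Euler product from real sums. -/

set_option autoImplicit false

namespace Pool.Agent.Q190.LT

open Filter Topology Asymptotics
open Pool.Agent.Q45.ML Pool.Agent.W187.UR

/-- The real smoothed sum `∑_{v, k ≥ 1} (∑_i α v i ^ k) / (k q_v^{k s₀}) cos(γ k log q_v / T) / Γ(1 + k log q_v / T)`. -/
noncomputable def rsum {P : Type} {n : ℕ} (q : P → ℝ) (α : P → Fin n → ℂ) (s₀ γ T : ℝ) : ℝ :=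
  (smooth q α s₀ γ T).re

variable {P : Type} {n : ℕ} {q : P → ℝ} {α : P → Fin n → ℂ} {θ d : ℝ}

theorem exp_im {r : ℂ} {N : ℤ} (h : r.im = -Real.pi * N) :
    Complex.exp r = (-1) ^ N * (Real.exp r.re : ℂ) := by
  have e1 : r = (r.re : ℂ) + (N : ℂ) * (-(Real.pi * Complex.I)) := by
    apply Complex.ext
    · simp
    · rw [h]
      simp
      ring
  have e2 : Complex.exp (-(Real.pi * Complex.I)) = -1 := by
    rw [Complex.exp_neg, Complex.exp_pi_mul_I]
    norm_num
  conv_lhs => rw [e1]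
  rw [Complex.exp_add, Complex.exp_int_mul, e2, Complex.ofReal_exp]
  ring

/-- **The law for real Euler products.** -/
theorem real_lead (E : Eul n q α θ d) (hr : RealSums α) {F : ℂ → ℂ} {s₀ : ℝ} (hs₀ : s₀ < θ + d)
    (hmer : ∀ x : ℝ, s₀ ≤ x → x ≤ θ + d → MeromorphicAt F (x : ℂ))
    (hF : ∀ s : ℂ, θ + d < s.re → HasProd (fun v => ∏ j, (1 - α v j * (q v : ℂ) ^ (-s))⁻¹) (F s))
    {γ : ℝ} (hγ : Real.pi / 2 < γ) :
    ∃ m : ℤ, meromorphicOrderAt F s₀ = m ∧
      meromorphicTrailingCoeffAt F s₀ = (-1) ^ (excess F s₀) * (‖meromorphicTrailingCoeffAt F s₀‖ : ℂ) ∧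
      0 < ‖meromorphicTrailingCoeffAt F s₀‖ ∧
      (fun T : ℝ => rsum q α s₀ γ T - (Real.log ‖meromorphicTrailingCoeffAt F s₀‖ - m * (Real.log T - (Lam γ).re))) =O[atTop]
        (fun T : ℝ => 1 / T) := by
  obtain ⟨m, r, h1, h2, h3, h4⟩ := E.law hr hs₀ hmer hF hγ
  have hexp := exp_im h3
  have hn : ‖meromorphicTrailingCoeffAt F s₀‖ = Real.exp r.re := by
    rw [← h2, Complex.norm_exp]
  refine ⟨m, h1, ?_, ?_, ?_⟩
  · rw [hn, ← h2, hexp]
  · rw [hn]
    exact Real.exp_pos _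
  · rw [hn, Real.log_exp]
    refine IsBigO.trans ?_ h4
    refine IsBigO.of_bound 1 (Eventually.of_forall fun T => ?_)
    rw [one_mul, Real.norm_eq_abs]
    have e : rsum q α s₀ γ T - (r.re - m * (Real.log T - (Lam γ).re)) =
        (smooth q α s₀ γ T - (r - m * (Real.log T - Lam γ))).re := by
      simp [rsum]
    rw [e]
    exact Complex.abs_re_le_norm _

/-- The exponential form, with error `O(1 / T)`. -/
theorem exp_rate {S : ℝ → ℝ} {l Λ : ℝ} {m : ℤ}
    (h : (fun T : ℝ => S T - (l - m * (Real.log T - Λ))) =O[atTop] (fun T : ℝ => 1 / T)) :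
    (fun T : ℝ => Real.exp (S T + m * (Real.log T - Λ)) - Real.exp l) =O[atTop] (fun T : ℝ => 1 / T) := by
  have h0 : Tendsto (fun T : ℝ => S T - (l - m * (Real.log T - Λ))) atTop (𝓝 0) :=
    h.trans_tendsto (tendsto_const_nhds.div_atTop tendsto_id)
  have h1 : (fun T : ℝ => Real.exp (S T - (l - m * (Real.log T - Λ))) - 1) =O[atTop]
      (fun T : ℝ => S T - (l - m * (Real.log T - Λ))) := by
    have h2 : (fun z : ℝ => Real.exp z - 1) =O[𝓝 0] fun z => z := by
      have := (Real.hasDerivAt_exp 0).isBigO_sub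
      simpa using this
    exact h2.comp_tendsto h0
  have h2 := (h1.trans h).const_mul_left (Real.exp l)
  refine h2.congr_left fun T => ?_
  rw [mul_sub, mul_one, ← Real.exp_add]
  congr 2
  ring

/-- The order is determined by the sums along one sequence. -/
theorem order_real {S : ℝ → ℝ} {l Λ : ℝ} {m : ℤ}
    (h : (fun T : ℝ => S T - (l - m * (Real.log T - Λ))) =O[atTop] (fun T : ℝ => 1 / T)) (k : ℤ) :
    List.TFAE [m = k, Tendsto (fun T : ℝ => S T / Real.log T) atTop (𝓝 (-k)),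
      ∃ t : ℕ → ℝ, Tendsto t atTop atTop ∧ Tendsto (fun i => S (t i) / Real.log (t i)) atTop (𝓝 (-k))] := by
  have h0 : Tendsto (fun T : ℝ => S T - (l - m * (Real.log T - Λ))) atTop (𝓝 0) :=
    h.trans_tendsto (tendsto_const_nhds.div_atTop tendsto_id)
  have hlog : Tendsto Real.log atTop atTop := Real.tendsto_log_atTop
  have hm : Tendsto (fun T : ℝ => S T / Real.log T) atTop (𝓝 (-m)) := by
    have h1 := (h0.div_atTop hlog).add ((tendsto_const_nhds (x := l + m * Λ)).div_atTop hlog)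
    have h2 := h1.add_const (-(m : ℝ))
    simp only [zero_add] at h2
    refine h2.congr' ?_
    filter_upwards [hlog.eventually_gt_atTop 0] with T hT
    field_simp
    ring
  tfae_have 1 → 2 := by
    rintro rfl
    exact hm
  tfae_have 2 → 3 := fun h => ⟨fun n => n, tendsto_natCast_atTop_atTop, h.comp tendsto_natCast_atTop_atTop⟩
  tfae_have 3 → 1 := by
    rintro ⟨t, ht, h⟩
    have h1 := tendsto_nhds_unique (hm.comp ht) h
    have h2 : (m : ℝ) = k := by linarith
    exact_mod_cast h2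
  tfae_finish

theorem ratio_iff {v : ℝ → ℝ} {a R : ℝ} (hR : R ≠ 0) (hv : Tendsto v atTop (𝓝 a)) :
    (∃ e : ℚ, a = e * R) ↔ ∃ D : ℕ, 0 < D ∧ ∃ t : ℕ → ℝ, Tendsto t atTop atTop ∧
      Tendsto (fun i => Metric.infDist (D * v (t i) / R) (Set.range ((↑) : ℤ → ℝ))) atTop (𝓝 0) := by
  have key : ∀ D : ℕ, ((∃ b : ℤ, (b : ℝ) = D * a / R) ↔ ∃ t : ℕ → ℝ, Tendsto t atTop atTop ∧
      Tendsto (fun i => Metric.infDist (D * v (t i) / R) (Set.range ((↑) : ℤ → ℝ))) atTop (𝓝 0)) := by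
    intro D
    have h1 := closed_tfae (K := Set.range ((↑) : ℤ → ℝ)) Int.isClosedEmbedding_coe_real.isClosed_range
      (Set.range_nonempty _) (f := fun T => D * v T / R) (x := D * a / R) ((hv.const_mul _).div_const _)
    exact h1.out 0 2
  constructor
  · rintro ⟨e, he⟩
    refine ⟨e.den, e.den_pos, (key e.den).1 ⟨e.num, ?_⟩⟩
    rw [he]
    have h1 : (e.den : ℝ) * (e : ℝ) = e.num := by
      have := Rat.den_mul_eq_num e
      exact_mod_cast congrArg (Rat.cast (K := ℝ)) this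
    field_simp
    linarith
  · rintro ⟨D, hD, ht⟩
    obtain ⟨b, hb⟩ := (key D).2 ht
    refine ⟨(b : ℚ) / D, ?_⟩
    have hD0 : (D : ℝ) ≠ 0 := by exact_mod_cast hD.ne'
    push_cast
    rw [hb]
    field_simp

end Pool.Agent.Q190.LT
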